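import Pool.Agent.Lib.MP_3beb55_lc.Main

/-!
Under GCH there is a graph on `ℵ_(ω+1)` vertices whose chromatic number is uncountable
(exactly `ℵ₁`), while every induced subgraph on at most `ℵ_ω` vertices is countably chromatic.
-/

namespace Pool.Agent.Results.MP_3beb55_lc.Incompact
open Cardinal Ordinal

theorem result
    (GCH : ∀ κ : Cardinal.{0}, Cardinal.aleph0 ≤ κ → 2 ^ κ = Order.succ κ) :
    ∃ (V : Type) (G : SimpleGraph V),
      Cardinal.mk V = Cardinal.aleph (Ordinal.omega0 + 1) ∧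
      IsEmpty (G.Coloring ℕ) ∧
      (∃ C : Type, Cardinal.mk C = Cardinal.aleph 1 ∧ Nonempty (G.Coloring C)) ∧
      ∀ s : Set V, Cardinal.mk s ≤ Cardinal.aleph Ordinal.omega0 →
        Nonempty ((G.induce s).Coloring ℕ) := by
  obtain ⟨V, G, h1, h2, h3, ⟨c⟩, h5⟩ := Pool.Agent.Lib.MP_3beb55_lc.main_zfc
  simp only [Pool.Agent.Lib.MP_3beb55_lc.beth_eq_aleph GCH] at h1 h2 h5
  refine ⟨V, G, le_antisymm h2 ?_, h3, ⟨(Ordinal.omega 1).ToType, ?_, ⟨?_⟩⟩, h5⟩
  · rw [← Cardinal.succ_aleph]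
    exact Order.succ_le_of_lt h1
  · simp
  · exact SimpleGraph.Coloring.mk (fun v => Ordinal.ToType.mk (c v))
      (fun h e => c.valid h (Ordinal.ToType.mk.injective e))

end Pool.Agent.Results.MP_3beb55_lc.Incompact
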